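import Pool.Agent.W811.LW.Stm

set_option autoImplicit false
open Finset Filter Topology

namespace Pool.Agent.W905.LW
open Pool.Agent.W811.LW

theorem lseq : LSEQ := by
  intro ε hε
  set r : ℝ := 1 + ε with hr
  have hr1 : 1 < r := by rw [hr]; linarith
  have hr0 : 0 < r := by linarith
  have hpow1 : ∀ k : ℕ, (1 : ℝ) ≤ r ^ k := fun k => one_le_pow₀ hr1.le
  have hdiv : Tendsto (fun k : ℕ => (k : ℝ) / r ^ k) atTop (𝓝 0) := by
    have := tendsto_pow_const_div_const_pow_of_one_lt 1 hr1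
    simpa using this
  have hatTop : Tendsto (fun k : ℕ => r ^ k) atTop atTop := tendsto_pow_atTop_atTop_of_one_lt hr1
  obtain ⟨N, hN⟩ : ∃ N : ℕ, ∀ k, N ≤ k → (k : ℝ) < r ^ k := by
    have h1 : ∀ᶠ k : ℕ in atTop, (k : ℝ) / r ^ k < 1 := hdiv.eventually (gt_mem_nhds one_pos)
    obtain ⟨N, hN⟩ := eventually_atTop.1 h1
    refine ⟨N, fun k hk => ?_⟩
    have := hN k hk
    rwa [div_lt_one (lt_of_lt_of_le one_pos (hpow1 k))] at this
  obtain ⟨M, hM⟩ : ∃ M : ℕ, ∀ k, M ≤ k → (8 : ℝ) ≤ r ^ k := by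
    obtain ⟨M, hM⟩ := eventually_atTop.1 (hatTop.eventually (eventually_ge_atTop 8))
    exact ⟨M, hM⟩
  refine ⟨fun k => ⌊r ^ k⌋₊ + k, max N M, ?_, ?_, ?_⟩
  · apply strictMono_nat_of_lt_succ
    intro k
    have h : ⌊r ^ k⌋₊ ≤ ⌊r ^ (k + 1)⌋₊ := Nat.floor_mono (pow_le_pow_right₀ hr1.le (Nat.le_succ k))
    show ⌊r ^ k⌋₊ + k < ⌊r ^ (k + 1)⌋₊ + (k + 1)
    omega
  · intro k
    show 2 * (⌊r ^ k⌋₊ + k) < ⌊r ^ (k + max N M)⌋₊ + (k + max N M)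
    have hk1 := hpow1 k
    have hf : ((⌊r ^ k⌋₊ : ℕ) : ℝ) ≤ r ^ k := Nat.floor_le (by linarith)
    have hg : r ^ (k + max N M) < ((⌊r ^ (k + max N M)⌋₊ : ℕ) : ℝ) + 1 := Nat.lt_floor_add_one _
    have h8 : 8 * r ^ k ≤ r ^ (k + max N M) := by
      rw [pow_add]
      have := hM (max N M) (le_max_right _ _)
      nlinarith
    have hkk : (k : ℝ) < r ^ k + (max N M : ℕ) := by
      rcases lt_or_ge k N with h | h
      · have h1 : (k : ℝ) < N := by exact_mod_cast h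
        have h2 : (N : ℝ) ≤ (max N M : ℕ) := by exact_mod_cast le_max_left N M
        linarith
      · have h1 := hN k h
        have h2 : (0 : ℝ) ≤ (max N M : ℕ) := Nat.cast_nonneg _
        linarith
    have hfin : ((2 * (⌊r ^ k⌋₊ + k) : ℕ) : ℝ) < ((⌊r ^ (k + max N M)⌋₊ + (k + max N M) : ℕ) : ℝ) := by
      push_cast
      push_cast at hkk
      linarith
    exact_mod_cast hfin
  · have hfl : Tendsto (fun k : ℕ => ((⌊r ^ k⌋₊ : ℕ) : ℝ) / r ^ k) atTop (𝓝 1) :=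
      (tendsto_nat_floor_div_atTop (R := ℝ)).comp hatTop
    have hL : Tendsto (fun k : ℕ => ((⌊r ^ k⌋₊ + k : ℕ) : ℝ) / r ^ k) atTop (𝓝 1) := by
      have := hfl.add hdiv
      rw [add_zero] at this
      refine this.congr fun k => ?_
      push_cast
      ring
    have hL1 : Tendsto (fun k : ℕ => ((⌊r ^ (k + 1)⌋₊ + (k + 1) : ℕ) : ℝ) / r ^ (k + 1)) atTop
        (𝓝 1) := hL.comp (tendsto_add_atTop_nat 1)
    have h := (hL1.div hL one_ne_zero).const_mul r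
    rw [div_one, mul_one] at h
    refine h.congr fun k => ?_
    have hk : (r ^ k : ℝ) ≠ 0 := (lt_of_lt_of_le one_pos (hpow1 k)).ne'
    have hk1 : (r ^ (k + 1) : ℝ) ≠ 0 := (lt_of_lt_of_le one_pos (hpow1 (k + 1))).ne'
    show r * (((⌊r ^ (k + 1)⌋₊ + (k + 1) : ℕ) : ℝ) / r ^ (k + 1) /
      (((⌊r ^ k⌋₊ + k : ℕ) : ℝ) / r ^ k)) =
      ((⌊r ^ (k + 1)⌋₊ + (k + 1) : ℕ) : ℝ) / ((⌊r ^ k⌋₊ + k : ℕ) : ℝ)
    have hpos : (0 : ℝ) < ((⌊r ^ k⌋₊ + k : ℕ) : ℝ) := by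
      have : 1 ≤ ⌊r ^ k⌋₊ := Nat.le_floor (by simpa using hpow1 k)
      exact_mod_cast (by omega : 0 < ⌊r ^ k⌋₊ + k)
    field_simp
    rw [pow_succ]
    ring

end Pool.Agent.W905.LW
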